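import Pool.Agent.Helper61.Blk.Lower

set_option autoImplicit false

namespace Pool.Agent.Results.MP_d4e795_co.ExplicitError

open Finset Function Filter Topology Pool.Agent.Helper61.Blk

theorem pow_sub_le {x y : ℝ} (hx : 0 ≤ x) (hxy : x ≤ y) (k : ℕ) :
    y ^ k - x ^ k ≤ k * (y - x) * y ^ (k - 1) := by
  induction k with
  | zero => simp
  | succ k ih =>
    have hy : 0 ≤ y := hx.trans hxy
    have h1 : x ^ k ≤ y ^ k := pow_le_pow_left₀ hx hxy k
    rcases Nat.eq_zero_or_pos k with rfl | hk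
    · simp
    · have h2 : y * y ^ (k - 1) = y ^ k := by
        rw [← pow_succ']; congr 1; omega
      have e : k + 1 - 1 = k := rfl
      rw [e]
      have h3 : y ^ (k + 1) - x ^ (k + 1) = y * (y ^ k - x ^ k) + x ^ k * (y - x) := by ring
      have h4 : y * (y ^ k - x ^ k) ≤ y * (k * (y - x) * y ^ (k - 1)) :=
        mul_le_mul_of_nonneg_left ih hy
      have h5 : x ^ k * (y - x) ≤ y ^ k * (y - x) :=
        mul_le_mul_of_nonneg_right h1 (by linarith)
      have h6 : y * (k * (y - x) * y ^ (k - 1)) = k * (y - x) * y ^ k := by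
        rw [← h2]; ring
      push_cast
      rw [h3]
      nlinarith [h4, h5, h6]

theorem choose_bound (d n : ℕ) (hd : 3 ≤ d) (hn : d ≤ n) :
    |(phi d n : ℝ) - 2 / d * n.choose (d - 1)| ≤ n * n.choose (d - 3) := by
  have hu := upper d n hd (by omega)
  have hl := lower d n (by omega) hn
  obtain ⟨m, rfl⟩ : ∃ m, d = m + 3 := ⟨d - 3, by omega⟩
  obtain ⟨k, rfl⟩ : ∃ k, n = m + 3 + k := ⟨n - (m + 3), by omega⟩
  set n := m + 3 + k with hn'
  have e1 : m + 3 - 1 = m + 2 := rfl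
  have e2 : m + 3 - 2 = m + 1 := rfl
  have e3 : m + 3 - 3 = m := rfl
  rw [e1, e3] at *
  rw [e2] at hl
  have e4 : n - (m + 3) + 1 = k + 1 := by omega
  rw [e4] at hl
  have c1 : n.choose (m + 2) * (m + 2) = n.choose (m + 1) * (k + 2) := by
    have := Nat.choose_succ_right_eq n (m + 1)
    have h : n - (m + 1) = k + 2 := by omega
    rw [h] at this
    exact this
  have c2 : n.choose (m + 1) * (m + 1) = n.choose m * (k + 3) := by
    have := Nat.choose_succ_right_eq n m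
    have h : n - m = k + 3 := by omega
    rw [h] at this
    exact this
  have c3 : (m + 3).choose 2 * 2 = (m + 3) * (m + 2) := by
    rw [Nat.choose_two_right]
    have : (m + 3) * (m + 3 - 1) = (m + 3) * (m + 2) := rfl
    rw [this]
    have hev : Even ((m + 2) * (m + 2 + 1)) := Nat.even_mul_succ_self (m + 2)
    obtain ⟨r, hr⟩ := hev
    have : (m + 3) * (m + 2) = r + r := by rw [← hr]; ring
    omega
  have hnk : (k : ℝ) + 3 ≤ n := by rw [hn']; push_cast; linarith [(Nat.cast_nonneg m : (0:ℝ) ≤ m)]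
  have A := (Nat.cast_nonneg (n.choose m) : (0:ℝ) ≤ (n.choose m : ℝ))
  have B := (Nat.cast_nonneg (n.choose (m+1)) : (0:ℝ) ≤ (n.choose (m+1) : ℝ))
  have hu' : ((m : ℝ) + 3) * phi (m + 3) n ≤ 2 * n.choose (m + 2) + (m + 3) * (n * n.choose m) := by
    exact_mod_cast hu
  have hl' : (n.choose (m + 1) : ℝ) * (k + 1) ≤ (m + 3).choose 2 * phi (m + 3) n := by
    exact_mod_cast hl
  have c1' : (n.choose (m + 2) : ℝ) * (m + 2) = n.choose (m + 1) * (k + 2) := by exact_mod_cast c1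
  have c2' : (n.choose (m + 1) : ℝ) * (m + 1) = n.choose m * (k + 3) := by exact_mod_cast c2
  have c3' : ((m + 3).choose 2 : ℝ) * 2 = (m + 3) * (m + 2) := by exact_mod_cast c3
  have hm : (0 : ℝ) ≤ m := Nat.cast_nonneg m
  have hm3 : (0 : ℝ) < (m : ℝ) + 3 := by linarith
  have hcast : ((m + 3 : ℕ) : ℝ) = (m : ℝ) + 3 := by push_cast; ring
  rw [hcast]
  -- `choose (m+1) ≤ n * choose m`
  have hB : (n.choose (m + 1) : ℝ) ≤ n * n.choose m := by
    have h1 : (n.choose (m + 1) : ℝ) ≤ n.choose (m + 1) * (m + 1) := by nlinarith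
    have h2 : (n.choose m : ℝ) * (k + 3) ≤ n.choose m * n := mul_le_mul_of_nonneg_left hnk A
    linarith
  rw [abs_le]
  constructor
  · -- lower
    have h1 : (n.choose (m + 1) : ℝ) * (k + 1) * 2 ≤ (m + 3) * (m + 2) * phi (m + 3) n := by
      have := mul_le_mul_of_nonneg_right hl' (by norm_num : (0:ℝ) ≤ 2)
      calc _ ≤ _ := this
        _ = ((m + 3).choose 2 : ℝ) * 2 * phi (m + 3) n := by ring
        _ = _ := by rw [c3']
    have h2 : (n.choose (m + 1) : ℝ) * (k + 1) = n.choose (m + 2) * (m + 2) - n.choose (m + 1) := by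
      rw [c1']; ring
    rw [h2] at h1
    have h3 : (2 : ℝ) / (m + 3) * n.choose (m + 2) - phi (m + 3) n ≤ n * n.choose m := by
      have hpos : (0 : ℝ) < ((m : ℝ) + 3) * (m + 2) := by positivity
      rw [← mul_le_mul_iff_right₀ hpos]
      have e : ((m : ℝ) + 3) * (m + 2) * (2 / (m + 3) * n.choose (m + 2) - phi (m + 3) n) =
          2 * (n.choose (m + 2) * (m + 2)) - (m + 3) * (m + 2) * phi (m + 3) n := by
        field_simp
      rw [e]
      have h4 : (2 : ℝ) * n.choose (m + 1) ≤ (m + 3) * (m + 2) * (n * n.choose m) := by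
        have : (0:ℝ) ≤ n * n.choose m := by positivity
        nlinarith [mul_nonneg hm this, mul_nonneg (mul_nonneg hm hm) this]
      linarith
    linarith
  · have : (phi (m + 3) n : ℝ) ≤ 2 / (m + 3) * n.choose (m + 2) + n * n.choose m := by
      rw [← mul_le_mul_iff_right₀ hm3]
      calc _ ≤ _ := hu'
        _ = _ := by field_simp
    linarith

theorem pow_bound (d n : ℕ) (hd : 3 ≤ d) (hn : d ≤ n) :
    |(phi d n : ℝ) - 2 / (d.factorial : ℝ) * n ^ (d - 1)| ≤ 2 * (n : ℝ) ^ (d - 2) := by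
  have h1 := choose_bound d n hd hn
  obtain ⟨m, rfl⟩ : ∃ m, d = m + 3 := ⟨d - 3, by omega⟩
  have e1 : m + 3 - 1 = m + 2 := rfl
  have e2 : m + 3 - 2 = m + 1 := rfl
  have e3 : m + 3 - 3 = m := rfl
  rw [e1, e3] at h1
  rw [e1, e2]
  have hm : (0 : ℝ) ≤ m := Nat.cast_nonneg m
  have hn0 : (0 : ℝ) ≤ n := Nat.cast_nonneg n
  have hnm : ((m : ℝ) + 1) ≤ n := by
    have : m + 1 ≤ n := by omega
    exact_mod_cast this
  have hfac : ((m + 3).factorial : ℝ) = ((m : ℝ) + 3) * (m + 2).factorial := by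
    rw [Nat.factorial_succ (m + 2)]; push_cast; ring
  have hfpos : (0 : ℝ) < (m + 2).factorial := by exact_mod_cast Nat.factorial_pos _
  -- `choose m ≤ n ^ m`
  have a1 : (n : ℝ) * n.choose m ≤ (n : ℝ) ^ (m + 1) := by
    have : (n.choose m : ℝ) ≤ (n : ℝ) ^ m := by exact_mod_cast Nat.choose_le_pow n m
    rw [pow_succ']
    exact mul_le_mul_of_nonneg_left this hn0
  -- descending factorial
  have a2 : ((m + 2).factorial : ℝ) * n.choose (m + 2) = n.descFactorial (m + 2) := by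
    rw [Nat.descFactorial_eq_factorial_mul_choose]; push_cast; ring
  have a3 : (n.descFactorial (m + 2) : ℝ) ≤ (n : ℝ) ^ (m + 2) := by
    exact_mod_cast Nat.descFactorial_le_pow n (m + 2)
  have a4 : ((n : ℝ) - (m + 1)) ^ (m + 2) ≤ n.descFactorial (m + 2) := by
    have h := Nat.pow_sub_le_descFactorial n (m + 2)
    have e : ((n + 1 - (m + 2) : ℕ) : ℝ) = (n : ℝ) - (m + 1) := by
      rw [Nat.cast_sub (by omega)]; push_cast; ring
    rw [← e]
    exact_mod_cast h
  have a5 := pow_sub_le (x := (n : ℝ) - (m + 1)) (y := n) (by linarith) (by linarith) (m + 2)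
  have e5 : m + 2 - 1 = m + 1 := rfl
  rw [e5] at a5
  have e6 : (n : ℝ) - (n - (m + 1)) = m + 1 := by ring
  rw [e6] at a5
  have key : (2 : ℝ) / ((m + 3 : ℕ) : ℝ) * n.choose (m + 2) =
      2 / ((m + 3).factorial : ℝ) * n.descFactorial (m + 2) := by
    rw [← a2, hfac]
    push_cast
    field_simp
  rw [key] at h1
  set D : ℝ := ((n.descFactorial (m + 2) : ℕ) : ℝ) with hD
  have b1 : (n : ℝ) ^ (m + 2) - D ≤ (m + 2) * (m + 1) * (n : ℝ) ^ (m + 1) := by
    have : ((m + 2 : ℕ) : ℝ) = (m : ℝ) + 2 := by push_cast; ring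
    rw [this] at a5
    linarith
  have hF : ((m : ℝ) + 2) * (m + 1) * 2 ≤ ((m + 3).factorial : ℝ) := by
    have hnat : (m + 2) * (m + 1) * 2 ≤ (m + 3).factorial := by
      have h1 : (m + 3).factorial = (m + 3) * ((m + 2) * ((m + 1) * m.factorial)) := by
        rw [Nat.factorial_succ, Nat.factorial_succ, Nat.factorial_succ]
      rw [h1]
      have h2 : 1 ≤ m.factorial := Nat.factorial_pos m
      calc (m + 2) * (m + 1) * 2 ≤ (m + 2) * (m + 1) * ((m + 3) * m.factorial) := by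
            apply Nat.mul_le_mul_left
            nlinarith
        _ = _ := by ring
    exact_mod_cast hnat
  have hFpos : (0 : ℝ) < ((m + 3).factorial : ℝ) := by exact_mod_cast Nat.factorial_pos _
  have hp : (0 : ℝ) ≤ (n : ℝ) ^ (m + 1) := by positivity
  have b2 : 2 / ((m + 3).factorial : ℝ) * ((n : ℝ) ^ (m + 2) - D) ≤ (n : ℝ) ^ (m + 1) := by
    rw [div_mul_eq_mul_div, div_le_iff₀ hFpos]
    nlinarith [mul_le_mul_of_nonneg_right hF hp]
  have b3 : 0 ≤ 2 / ((m + 3).factorial : ℝ) * ((n : ℝ) ^ (m + 2) - D) :=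
    mul_nonneg (by positivity) (by linarith)
  rw [abs_le] at h1 ⊢
  have e7 : 2 / ((m + 3).factorial : ℝ) * ((n : ℝ) ^ (m + 2) - D) =
      2 / ((m + 3).factorial : ℝ) * (n : ℝ) ^ (m + 2) - 2 / ((m + 3).factorial : ℝ) * D := by ring
  rw [e7] at b2 b3
  constructor <;> linarith [h1.1, h1.2]

/-- **The least size `φ_d(n)` of a `d`-blocking set, with explicit error term.** For all
`n ≥ d ≥ 3`, `|φ_d(n) - (2/d) C(n, d-1)| ≤ n C(n, d-3)` and `|φ_d(n) - 2 n^(d-1) / d!| ≤ 2 n^(d-2)`; in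
particular `φ_d(n) / n^(d-1)` converges to `2 / d!`. -/
theorem result (d : ℕ) (hd : 3 ≤ d) :
    (∀ n : ℕ, d ≤ n → |(phi d n : ℝ) - 2 / d * n.choose (d - 1)| ≤ n * n.choose (d - 3)) ∧
    (∀ n : ℕ, d ≤ n →
      |(phi d n : ℝ) - 2 / (d.factorial : ℝ) * (n : ℝ) ^ (d - 1)| ≤ 2 * (n : ℝ) ^ (d - 2)) ∧
    Tendsto (fun n : ℕ => (phi d n : ℝ) / (n : ℝ) ^ (d - 1)) atTop
      (𝓝 (2 / (d.factorial : ℝ))) := by
  refine ⟨fun n hn => choose_bound d n hd hn, fun n hn => pow_bound d n hd hn, ?_⟩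
  have h0 : Tendsto (fun n : ℕ => (2 : ℝ) / n) atTop (𝓝 0) :=
    tendsto_const_div_atTop_nhds_zero_nat 2
  rw [tendsto_iff_dist_tendsto_zero]
  refine squeeze_zero' (Eventually.of_forall fun n => dist_nonneg) ?_ h0
  filter_upwards [eventually_ge_atTop d] with n hn
  have h := pow_bound d n hd hn
  have hnpos : (0 : ℝ) < n := by exact_mod_cast (by omega : 0 < n)
  have hp : (0 : ℝ) < (n : ℝ) ^ (d - 1) := by positivity
  rw [Real.dist_eq]
  have e : (phi d n : ℝ) / (n : ℝ) ^ (d - 1) - 2 / (d.factorial : ℝ) =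
      ((phi d n : ℝ) - 2 / (d.factorial : ℝ) * (n : ℝ) ^ (d - 1)) / (n : ℝ) ^ (d - 1) := by
    field_simp
  rw [e, abs_div, abs_of_pos hp, div_le_div_iff₀ hp hnpos]
  have e2 : (n : ℝ) ^ (d - 1) = (n : ℝ) ^ (d - 2) * n := by
    rw [← pow_succ]; congr 1; omega
  have e3 : 2 * (n : ℝ) ^ (d - 1) = 2 * (n : ℝ) ^ (d - 2) * n := by rw [e2]; ring
  rw [e3]
  exact mul_le_mul_of_nonneg_right h hnpos.le

end Pool.Agent.Results.MP_d4e795_co.ExplicitError
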